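import Pool.Agent.H303.AP.Final

/-!
Navier-Stokes equations in a bounded domain with zero boundary values: regularity for all data is
equivalent to the regularity for one viscosity, one time and one initial state, and to an inequality
for finite sums `∑ aᵢ(t) φᵢ(x)` in which no solution of the equations occurs.
-/

set_option autoImplicit false

open MeasureTheory Set
open scoped InnerProductSpace ENNReal ContDiff

namespace Pool.Agent.Results.MP_fd8964_an.AprioriInequality

open H772R2.NS.Pub Pool.Agent.X187.NSD Pool.Agent.H303.APP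

/-- Let `Ω` be a bounded open set. The following are equivalent.
* For all `ν, T > 0` and all admissible data there is a strong solution on `[0,T]`.
* There are one `ν > 0`, one `T > 0` and admissible data `d₀` such that all admissible data with the
  initial velocity and with the value of the force at the time `0` of `d₀` have a strong solution
  on `[0,T]`. (So, if there are data without a strong solution, then there are such data for all
  `ν`, all `T` and with every initial state.)
* For each `R` there is `M` such that for all fields `u(t,x) = ∑ aᵢ(t) φᵢ(x)`, with finitely many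
  divergence free test fields `φᵢ` in `Ω` and smooth functions `aᵢ` which vanish in a neighbourhood
  of `(-∞,0]`: if `∂ₜu - Δu + (u·∇)u = -div F`, up to a gradient, on `[0,1]`, with `F ∈ H¹(0,1; L²)`,
  `F(0) = 0` and `∫₀¹ ‖F'‖² ≤ R`, then `∫_Ω |∇u(1)|² ≤ M`. -/
theorem result : ∀ (Ω : Set R3), IsOpen Ω → Bornology.IsBounded Ω →
    List.TFAE [
      ∀ ν T : ℝ, 0 < ν → 0 < T → ∀ d : Data Ω, d.Admissible ν T → d.Regular ν T,
      ∃ ν T : ℝ, 0 < ν ∧ 0 < T ∧ ∃ d₀ : Data Ω, d₀.Admissible ν T ∧
        ∀ d : Data Ω, d.Admissible ν T → d.u₀ = d₀.u₀ → d.F 0 = d₀.F 0 → d.Regular ν T,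
      ∀ R : ℝ, ∃ M : ℝ, ∀ (n : ℕ) (a : Fin n → ℝ → ℝ) (φ : Fin n → R3 → R3)
        (F F' : ℝ → L2 Ω Mat), Starts Ω a φ → IsH1 1 F F' → F 0 = 0 → Residual Ω a φ F →
        (∫ t in (0 : ℝ)..1, ‖F' t‖ ^ 2) ≤ R → ∫ x in Ω, ‖jac (field a φ 1) x‖ ^ 2 ≤ M] :=
  fun _ hΩ hb => Pool.Agent.H303.AP.main hΩ hb

end Pool.Agent.Results.MP_fd8964_an.AprioriInequality
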