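import Pool.Agent.H303.RS.Pub

/-!
Axisymmetric solutions of the Navier-Stokes equations with zero boundary values as limits of
solutions with a discrete rotational symmetry of high order, and of solutions away from the axis.
-/

set_option autoImplicit false

open MeasureTheory Set Filter Topology
open scoped InnerProductSpace ENNReal ContDiff

namespace Pool.Agent.Results.MP_fd8964_an.AxisymmetricLimit

open H772R2.NS.Pub Pool.Agent.X187.NSD Pool.Agent.H303.RSP

/-- Let `Ω` be a bounded open axisymmetric set, which may meet the axis, `ν, T > 0` and `R ≥ 0`.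
For `δ > 0` all axisymmetric admissible data in `{x ∈ Ω | dist(x, axis) > δ}` have a strong
solution on `[0,T]`, and the following are equivalent.

1. All axisymmetric admissible data in `Ω` (with swirl) of size at most `R` have a strong solution
   on `[0,T]`.
2. There are `R' > R`, `L`, `δ > 0` and `k0` such that, for all `k > k0` and all open `Ω'` with
   `{x ∈ Ω | dist(x, axis) > δ} ⊆ Ω' ⊆ Ω` which are invariant under the rotation by `2π/k`, all
   admissible data in `Ω'` of size at most `R'` which are invariant under the rotation by `2π/k`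
   have a strong solution on `[0,T]` with `‖∇u(t)‖ ≤ L`.
3. There are `R' > R` and `L` such that, for all `ε > 0` and `N`, this holds for some `k > N` and
   some `Ω'` with `{x ∈ Ω | dist(x, axis) > ε} ⊆ Ω' ⊆ Ω`.
4. There are `R' > R` and `L` such that, for arbitrarily small `δ > 0`, all the strong solutions on
   `[0,T]` in `{x ∈ Ω | dist(x, axis) > δ}` with axisymmetric admissible data of size at most `R'`
   satisfy `‖∇u(t)‖ ≤ L`. -/
theorem result : ∀ Ω : Set R3, IsOpen Ω → Bornology.IsBounded Ω → (∀ α : ℝ, RotInv α Ω) →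
    ∀ ν T R : ℝ, 0 < ν → 0 < T → 0 ≤ R →
    (∀ δ : ℝ, 0 < δ → ∀ d : Data (offAxis Ω δ), d.Admissible ν T → Axisymmetric T d →
      d.Regular ν T) ∧
    List.TFAE [
      ∀ d : Data Ω, d.Admissible ν T → Axisymmetric T d → d.size T ≤ R → d.Regular ν T,
      ∃ R' : ℝ, R < R' ∧ ∃ L δ : ℝ, 0 < δ ∧ ∃ k0 : ℕ, ∀ k : ℕ, k0 < k → ∀ Ω' : Set R3,
        IsOpen Ω' → offAxis Ω δ ⊆ Ω' → Ω' ⊆ Ω → RotInv (2 * Real.pi / k) Ω' →
        RegularInvariant Ω' (2 * Real.pi / k) ν T R' L,
      ∃ R' : ℝ, R < R' ∧ ∃ L : ℝ, ∀ ε : ℝ, 0 < ε → ∀ N : ℕ, ∃ k : ℕ, N < k ∧ ∃ Ω' : Set R3,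
        IsOpen Ω' ∧ offAxis Ω ε ⊆ Ω' ∧ Ω' ⊆ Ω ∧ RotInv (2 * Real.pi / k) Ω' ∧
        RegularInvariant Ω' (2 * Real.pi / k) ν T R' L,
      ∃ R' : ℝ, R < R' ∧ ∃ L : ℝ, ∀ ε : ℝ, 0 < ε → ∃ δ : ℝ, 0 < δ ∧ δ < ε ∧
        ∀ d : Data (offAxis Ω δ), d.Admissible ν T → Axisymmetric T d → d.size T ≤ R' →
          ∀ u u' G G', IsStrong (offAxis Ω δ) ν T d.F u u' G G' → u 0 = d.u₀ →
            ∀ t ∈ Icc 0 T, ‖G t‖ ≤ L] := by
  intro Ω hΩ hb h ν T R hν hT hR
  exact ⟨fun δ hδ => Pool.Agent.H303.RS.exists_pub hΩ hb h hν hT hδ,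
    Pool.Agent.H303.RS.main hΩ hb h hν hT hR⟩

end Pool.Agent.Results.MP_fd8964_an.AxisymmetricLimit
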