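import Pool.Agent.H303.DS.Fin

/-!
Regularity for the Navier-Stokes equations with zero boundary values under perturbations of the
domain.
-/

set_option autoImplicit false

open MeasureTheory Set Filter Topology
open scoped InnerProductSpace ENNReal ContDiff

namespace Pool.Agent.Results.MP_fd8964_an.DomainPerturbation

open H772R2.NS.Pub Pool.Agent.X187.NSD Pool.Agent.H303.DSP

/-- Let `Ωn n` be open subsets of a bounded open set `D` which converge to `Ω ⊆ D` in the sense of
Mosco, and `R ≥ 0`. All admissible data of size at most `R` in `Ω` have a strong solution on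
`[0,T]` if and only if there are `R' > R` and `L` such that, for all large `n`, all admissible data
of size at most `R'` in `Ωn n` have a strong solution on `[0,T]` the gradients of which are bounded
by `L`, and if and only if this is so for infinitely many `n`. -/
theorem result : ∀ D : Set R3, IsOpen D → Bornology.IsBounded D →
    ∀ (Ω : Set R3) (Ωn : ℕ → Set R3), IsOpen Ω → Ω ⊆ D → (∀ n, IsOpen (Ωn n)) →
    (∀ n, Ωn n ⊆ D) → DomConv D Ωn Ω → ∀ ν T R : ℝ, 0 < ν → 0 < T → 0 ≤ R →
    List.TFAE [∀ d : Data Ω, d.Admissible ν T → d.size T ≤ R → d.Regular ν T,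
      ∃ R' : ℝ, R < R' ∧ ∃ L : ℝ, ∀ᶠ n in atTop, RegularWithBound (Ωn n) ν T R' L,
      ∃ R' : ℝ, R < R' ∧ ∃ L : ℝ, ∃ᶠ n in atTop, RegularWithBound (Ωn n) ν T R' L] := by
  intro D hD hb Ω Ωn hΩ hΩD hΩn hΩnD hconv ν T R hν hT hR
  exact Pool.Agent.H303.DS.transfer hD hb hΩ hΩD hΩn hΩnD
    (Pool.Agent.H303.DS.mosS_of_domConv hconv) hν hT hR

end Pool.Agent.Results.MP_fd8964_an.DomainPerturbation
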