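import Pool.Agent.H303.DC.Fin

/-!
Regularity for the Navier-Stokes equations with zero boundary values in all convex and star-shaped
domains at once: uniform bounds, or a worst domain with minimal blow-up data.
-/

set_option autoImplicit false

open MeasureTheory Set Filter Topology
open scoped InnerProductSpace ENNReal ContDiff

namespace Pool.Agent.Results.MP_fd8964_an.WorstDomain

open H772R2.NS.Pub Pool.Agent.X187.NSD Pool.Agent.H303.DSP Pool.Agent.H303.DCP

/-- Let `D` be a bounded open set, `ρ₀ > 0`, and let the class consist of the open subsets of `D`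
which are convex (possibly very thin) or star-shaped with respect to a ball of radius `ρ₀`. Then
either for each `R` there is one bound `L` such that in each set `Ω` of the class all admissible
data of size at most `R` have a strong solution on `[0,T]` with `‖∇u(t)‖ ≤ L`; or there is a
critical size `ρ > 0`: such bounds, uniform in the class, hold for `R < ρ`; in some set of the class
there are data of size `ρ` without a strong solution; and these worst pairs are compact: if `d n` are
admissible data without strong solution in sets `Ωn n` of the class and their sizes tend to `ρ`, then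
for a subsequence the sets converge in the sense of Mosco to a set `Ω` of the class, and the data
converge strongly to data `e` in `Ω` of size `ρ` without a strong solution. -/
theorem result : ∀ D : Set R3, IsOpen D → Bornology.IsBounded D → ∀ ρ₀ : ℝ, 0 < ρ₀ →
    ∀ ν T : ℝ, 0 < ν → 0 < T →
    (∀ R : ℝ, ∃ L : ℝ, ∀ Ω, Shape D ρ₀ Ω → RegularWithBound Ω ν T R L) ∨
    ∃ ρ : ℝ, 0 < ρ ∧
      (∀ R : ℝ, R < ρ → ∃ L : ℝ, ∀ Ω, Shape D ρ₀ Ω → RegularWithBound Ω ν T R L) ∧
      (∃ Ω, Shape D ρ₀ Ω ∧ ∃ e : Data Ω, e.Admissible ν T ∧ ¬ e.Regular ν T ∧ e.size T = ρ) ∧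
      ∀ (Ωn : ℕ → Set R3) (d : ∀ n, Data (Ωn n)), (∀ n, Shape D ρ₀ (Ωn n)) →
        (∀ n, (d n).Admissible ν T) → (∀ n, ¬ (d n).Regular ν T) →
        Tendsto (fun n => (d n).size T) atTop (𝓝 ρ) →
        ∃ φ : ℕ → ℕ, StrictMono φ ∧ ∃ Ω, Shape D ρ₀ Ω ∧ DomConv D (fun n => Ωn (φ n)) Ω ∧
          ∃ e : Data Ω, e.Admissible ν T ∧ ¬ e.Regular ν T ∧ e.size T = ρ ∧
            Tendsto (fun n => dataGap D T (d (φ n)) e) atTop (𝓝 0) := by
  intro D hD hb ρ₀ hρ₀ ν T hν hT
  exact Pool.Agent.H303.DC.main (D := D) hD hb hρ₀ hν hT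

end Pool.Agent.Results.MP_fd8964_an.WorstDomain
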